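import Pool.Agent.H57Z.SymMain

namespace Pool.Agent.Results.MP_356e41_ag.ANotPolynomial

open Pool.Agent.H57Z.Sym MvPolynomial

/-- Over every real closed field, the ideal `(N_6 - 2 N_4 + N_2, N_1)` of the ring of symmetric
functions cuts out finite sets `V_n` on whose zeroth cohomology the trivial representation has
multiplicity `⌊n/2⌋ + 1`, which is not eventually a polynomial in `n`. -/
theorem result (R : Type*) [Field R] [IsRealClosed R] [LinearOrder R] [IsStrictOrderedRing R]
    [TopologicalSpace R] [OrderTopology R] :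
    ∃ f : Fin 2 → SymFun R,
      (∀ n, (f 0).φ n = psum (Fin n) R 6 - 2 * psum (Fin n) R 4 + psum (Fin n) R 2) ∧
      (∀ n, (f 1).φ n = psum (Fin n) R 1) ∧
      (∀ n, (V f n).Finite ∧ trivMult (V f n) = n / 2 + 1) ∧
      ¬ ∃ (P : Polynomial ℚ) (N : ℕ), ∀ n ≥ N, (trivMult (V f n) : ℚ) = P.eval (n : ℚ) := by
  refine ⟨![f0 R, f1 R], fun _ => rfl, fun _ => rfl, fun n => ⟨finite_V n, trivMult_V n⟩, ?_⟩
  simp only [trivMult_V]
  exact not_poly

end Pool.Agent.Results.MP_356e41_ag.ANotPolynomial
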